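import Pool.Agent.Helper42.KS.Goals

set_option autoImplicit false

/-! # Packet BES: Bessel / Parseval inequality for finitely supported kernels -/

namespace Pool.Agent.Helper42.KS.PkBES

open MeasureTheory
open scoped ENNReal NNReal ComplexConjugate

lemma ee_add (s t : ℝ) : ee (s + t) = ee s * ee t := by
  unfold ee
  rw [← Complex.exp_add]
  congr 1
  push_cast
  ring

lemma ee_zero : ee 0 = 1 := by
  unfold ee
  simp

lemma ee_neg_conj (t : ℝ) : conj (ee t) = ee (-t) := by
  unfold ee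
  rw [← Complex.exp_conj]
  congr 1
  rw [map_mul, Complex.conj_ofReal, Complex.conj_I]
  push_cast
  ring

lemma ee_int (n : ℤ) : ee n = 1 := by
  unfold ee
  rw [Complex.exp_eq_one_iff]
  refine ⟨n, ?_⟩
  push_cast
  ring

lemma ee_sum {ι : Type*} (s : Finset ι) (f : ι → ℝ) : ee (∑ i ∈ s, f i) = ∏ i ∈ s, ee (f i) := by
  classical
  induction s using Finset.induction_on with
  | empty => simp [ee_zero]
  | insert a s ha ih => rw [Finset.sum_insert ha, Finset.prod_insert ha, ee_add, ih]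

lemma continuous_ee : Continuous ee := by
  unfold ee
  fun_prop

lemma integral_one (n : ℤ) :
    ∫ t in Set.Icc (0 : ℝ) 1, ee (n * t) = if n = 0 then 1 else 0 := by
  rw [integral_Icc_eq_integral_Ioc, ← intervalIntegral.integral_of_le zero_le_one]
  split_ifs with h
  · subst h
    simp [ee_zero]
  · have hc : (2 * Real.pi * n * Complex.I : ℂ) ≠ 0 := by
      have h1 : (n : ℂ) ≠ 0 := by exact_mod_cast h
      have h2 : (Real.pi : ℂ) ≠ 0 := by exact_mod_cast Real.pi_ne_zero
      simp [h1, h2]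
    have e : ∀ t : ℝ, ee (n * t) = Complex.exp ((2 * Real.pi * n * Complex.I) * (t : ℂ)) := by
      intro t
      unfold ee
      congr 1
      push_cast
      ring
    simp_rw [e]
    rw [integral_exp_mul_complex hc]
    have h3 : Complex.exp (2 * Real.pi * n * Complex.I * ((1 : ℝ) : ℂ)) = 1 := by
      have := ee_int n
      unfold ee at this
      rw [← this]
      congr 1
      push_cast
      ring
    rw [h3]
    simp

lemma integral_multi {d : ℕ} (w : Fin d → ℤ) :
    ∫ ξ in Set.pi Set.univ (fun _ : Fin d => Set.Icc (0 : ℝ) 1), ee (∑ i, (w i : ℝ) * ξ i) =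
      if w = 0 then 1 else 0 := by
  have h1 : (volume : Measure (Fin d → ℝ)).restrict
      (Set.pi Set.univ (fun _ : Fin d => Set.Icc (0 : ℝ) 1)) =
      Measure.pi (fun _ : Fin d => (volume : Measure ℝ).restrict (Set.Icc 0 1)) := by
    rw [volume_pi, Measure.restrict_pi_pi]
  rw [h1]
  simp_rw [ee_sum]
  rw [integral_fintype_prod_eq_prod (μ := fun _ : Fin d => (volume : Measure ℝ).restrict (Set.Icc 0 1))
    (f := fun i (t : ℝ) => ee ((w i : ℝ) * t))]
  simp_rw [integral_one]
  split_ifs with h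
  · subst h
    simp
  · obtain ⟨i, hi⟩ : ∃ i, w i ≠ 0 := by
      by_contra hh
      push Not at hh
      exact h (funext hh)
    exact Finset.prod_eq_zero (Finset.mem_univ i) (by simp [hi])

lemma continuous_char {d : ℕ} (w : Fin d → ℤ) :
    Continuous fun ξ : Fin d → ℝ => ee (∑ i, (w i : ℝ) * ξ i) := by
  refine continuous_ee.comp ?_
  fun_prop

lemma parseval {d : ℕ} (W : Finset (Fin d → ℤ)) (g : (Fin d → ℤ) → ℂ) :
    ∫ ξ in Set.pi Set.univ (fun _ : Fin d => Set.Icc (0 : ℝ) 1),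
      ‖∑ w ∈ W, g w * ee (∑ i, (w i : ℝ) * ξ i)‖ ^ 2 = ∑ w ∈ W, ‖g w‖ ^ 2 := by
  have hK : IsCompact (Set.pi Set.univ (fun _ : Fin d => Set.Icc (0 : ℝ) 1)) :=
    isCompact_univ_pi fun _ => isCompact_Icc
  have key : ((∫ ξ in Set.pi Set.univ (fun _ : Fin d => Set.Icc (0 : ℝ) 1),
      ‖∑ w ∈ W, g w * ee (∑ i, (w i : ℝ) * ξ i)‖ ^ 2 : ℝ) : ℂ) =
      ((∑ w ∈ W, ‖g w‖ ^ 2 : ℝ) : ℂ) := by
    rw [← integral_complex_ofReal]
    have e : ∀ ξ : Fin d → ℝ,
        ((‖∑ w ∈ W, g w * ee (∑ i, (w i : ℝ) * ξ i)‖ ^ 2 : ℝ) : ℂ) =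
        ∑ w ∈ W, ∑ w' ∈ W, (g w * conj (g w')) * ee (∑ i, ((w - w') i : ℝ) * ξ i) := by
      intro ξ
      have h0 : ∀ z : ℂ, ((‖z‖ ^ 2 : ℝ) : ℂ) = z * conj z := by
        intro z
        rw [Complex.mul_conj, Complex.normSq_eq_norm_sq]
      rw [h0, map_sum, Finset.sum_mul_sum]
      refine Finset.sum_congr rfl fun w _ => Finset.sum_congr rfl fun w' _ => ?_
      rw [map_mul, ee_neg_conj]
      have h1 : ee (∑ i, ((w - w') i : ℝ) * ξ i) =
          ee (∑ i, (w i : ℝ) * ξ i) * ee (-∑ i, (w' i : ℝ) * ξ i) := by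
        rw [← ee_add]
        congr 1
        rw [← sub_eq_add_neg, ← Finset.sum_sub_distrib]
        refine Finset.sum_congr rfl fun i _ => ?_
        rw [Pi.sub_apply]
        push_cast
        ring
      rw [h1]
      ring
    simp_rw [e]
    have hint : ∀ (w w' : Fin d → ℤ), IntegrableOn
        (fun ξ : Fin d → ℝ => (g w * conj (g w')) * ee (∑ i, ((w - w') i : ℝ) * ξ i))
        (Set.pi Set.univ (fun _ : Fin d => Set.Icc (0 : ℝ) 1)) := by
      intro w w'
      exact (continuous_const.mul (continuous_char (w - w'))).continuousOn.integrableOn_compact hK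
    rw [integral_finsetSum _ fun w _ => integrable_finsetSum _ fun w' _ => hint w w']
    push_cast
    refine Finset.sum_congr rfl fun w hw => ?_
    rw [integral_finsetSum _ fun w' _ => hint w w']
    rw [Finset.sum_eq_single w]
    · rw [integral_const_mul, integral_multi, if_pos (sub_self w), mul_one, Complex.mul_conj,
        Complex.normSq_eq_norm_sq]
      push_cast
      rfl
    · intro w' _ hne
      rw [integral_const_mul, integral_multi, if_neg (sub_ne_zero.2 (Ne.symm hne)), mul_zero]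
    · intro h
      exact absurd hw h
  exact_mod_cast key

theorem thm : G_BES := by
  classical
  intro d A E X K hK
  set W : Finset (Fin d → ℤ) := (A ×ˢ E).image (fun p => p.1 + p.2) with hW
  have h1 : ∀ ξ : Fin d → ℝ,
      ∑ w ∈ W, app K E w * ee (∑ i, (w i : ℝ) * ξ i) =
      (∑ y ∈ A, K y * ee (∑ i, (y i : ℝ) * ξ i)) * (∑ z ∈ E, ee (∑ i, (z i : ℝ) * ξ i)) := by
    intro ξ
    have h2 : ∑ w ∈ W, app K E w * ee (∑ i, (w i : ℝ) * ξ i) =
        ∑ z ∈ E, ∑ w ∈ W, K (w - z) * ee (∑ i, (w i : ℝ) * ξ i) := by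
      rw [Finset.sum_comm]
      refine Finset.sum_congr rfl fun w _ => ?_
      rw [app, Finset.sum_mul]
    rw [h2, Finset.sum_mul_sum, Finset.sum_comm (s := A)]
    refine Finset.sum_congr rfl fun z hz => ?_
    have h3 : ∀ y ∈ A, K y * ee (∑ i, (y i : ℝ) * ξ i) * ee (∑ i, (z i : ℝ) * ξ i) =
        (fun w : Fin d → ℤ => K (w - z) * ee (∑ i, (w i : ℝ) * ξ i)) (y + z) := by
      intro y _
      simp only
      rw [add_sub_cancel_right, mul_assoc, ← ee_add, ← Finset.sum_add_distrib]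
      congr 2
      refine Finset.sum_congr rfl fun i _ => ?_
      rw [Pi.add_apply]
      push_cast
      ring
    rw [Finset.sum_congr rfl h3]
    rw [← Finset.sum_image (s := A) (g := fun y => y + z)
      (f := fun w : Fin d → ℤ => K (w - z) * ee (∑ i, (w i : ℝ) * ξ i))
      (fun a _ b _ hab => add_right_cancel hab)]
    symm
    apply Finset.sum_subset
    · intro w hw
      rw [Finset.mem_image] at hw
      obtain ⟨y, hy, rfl⟩ := hw
      exact Finset.mem_image.2 ⟨(y, z), Finset.mem_product.2 ⟨hy, hz⟩, rfl⟩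
    · intro w _ hw
      have : w - z ∉ A := by
        intro hh
        exact hw (Finset.mem_image.2 ⟨w - z, hh, sub_add_cancel w z⟩)
      rw [hK _ this, zero_mul]
  have h4 : ∀ ξ : Fin d → ℝ,
      ‖∑ y ∈ A, K y * ee (∑ i, (y i : ℝ) * ξ i)‖ ^ 2 * ‖∑ z ∈ E, ee (∑ i, (z i : ℝ) * ξ i)‖ ^ 2 =
      ‖∑ w ∈ W, app K E w * ee (∑ i, (w i : ℝ) * ξ i)‖ ^ 2 := by
    intro ξ
    rw [h1, norm_mul, mul_pow]
  simp_rw [h4]
  rw [parseval]
  calc ∑ x ∈ X, ‖app K E x‖ ^ 2 ≤ ∑ x ∈ X ∪ W, ‖app K E x‖ ^ 2 :=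
        Finset.sum_le_sum_of_subset_of_nonneg Finset.subset_union_left fun _ _ _ => by positivity
    _ = ∑ x ∈ W, ‖app K E x‖ ^ 2 := by
        symm
        apply Finset.sum_subset Finset.subset_union_right
        intro x _ hx
        have : app K E x = 0 := by
          rw [app]
          refine Finset.sum_eq_zero fun z hz => hK _ fun hh => hx ?_
          exact Finset.mem_image.2 ⟨(x - z, z), Finset.mem_product.2 ⟨hh, hz⟩, sub_add_cancel x z⟩
        rw [this]
        simp

end Pool.Agent.Helper42.KS.PkBES
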